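import Mathlib

set_option autoImplicit false

/-! Block sums of roots of unity with alternating binomial coefficients. -/

namespace Run7.h840.OD
open Finset

lemma sum_blocks (q Q R : ℕ) (F : ℕ → ℂ) :
    ∑ l ∈ range (q * Q + R), F l =
      (∑ j ∈ range Q, ∑ r ∈ range q, F (q * j + r)) + ∑ r ∈ range R, F (q * Q + r) := by
  rw [Finset.sum_range_add]
  congr 1
  induction Q with
  | zero => simp
  | succ Q ih => rw [Nat.mul_succ, Finset.sum_range_add, ih, Finset.sum_range_succ]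

lemma div_blk {q : ℕ} (j r : ℕ) (hr : r < q) : (q * j + r) / q = j := by
  rw [Nat.mul_add_div (by omega), Nat.div_eq_of_lt hr, Nat.add_zero]

lemma alt_sum {v w M' : ℕ} (hw : 1 ≤ w) (hM : 1 ≤ M') (hwv : w < v) :
    (v : ℂ) * ∑ j ∈ range (w * M'), (-1) ^ j * ((v * M').choose j : ℂ) =
      - (w * ((-1) ^ (w * M') * ((v * M').choose (w * M') : ℂ))) := by
  obtain ⟨m, hm⟩ : ∃ m, w * M' = m + 1 := ⟨w * M' - 1, by have := Nat.mul_pos hw hM; omega⟩
  obtain ⟨t, ht⟩ : ∃ t, v * M' = t + 1 :=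
    ⟨v * M' - 1, by have := Nat.mul_pos (lt_of_lt_of_le hw hwv.le) hM; omega⟩
  have h1 : (∑ i ∈ range (m + 1), ((-1) ^ i * (((t + 1).choose i : ℕ) : ℤ))) = (-1) ^ m * (t.choose m : ℤ) :=
    Int.alternating_sum_range_choose_eq_choose
  have h2 : (∑ i ∈ range (m + 1), ((-1) ^ i * (((t + 1).choose i : ℕ) : ℂ))) = (-1) ^ m * (t.choose m : ℂ) := by
    exact_mod_cast congrArg (fun z : ℤ => (z : ℂ)) h1
  have h3 : (t + 1) * t.choose m = (t + 1).choose (m + 1) * (m + 1) := Nat.add_one_mul_choose_eq t m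
  have h4 : v * t.choose m = w * (t + 1).choose (m + 1) := by
    have h5 : M' * (v * t.choose m) = M' * (w * (t + 1).choose (m + 1)) := by
      calc M' * (v * t.choose m) = (v * M') * t.choose m := by ring
        _ = (t + 1).choose (m + 1) * (w * M') := by rw [ht, h3, hm]
        _ = M' * (w * (t + 1).choose (m + 1)) := by ring
    exact Nat.eq_of_mul_eq_mul_left (by omega) h5
  have h6 : (v : ℂ) * t.choose m = w * (t + 1).choose (m + 1) := by exact_mod_cast h4
  rw [hm, ht, h2, pow_succ]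
  linear_combination ((-1 : ℂ)) ^ m * h6

lemma sgn {q : ℕ} (hq : Odd q) (l : ℕ) : ((-1 : ℂ)) ^ l * (-1) ^ (l % q) = (-1) ^ (l / q) := by
  have h := Nat.div_add_mod l q
  have h1 : ((-1 : ℂ)) ^ l = ((-1) ^ q) ^ (l / q) * (-1) ^ (l % q) := by
    rw [← pow_mul, ← pow_add, h]
  rw [h1, hq.neg_one_pow, mul_assoc, ← pow_add, ← two_mul, pow_mul ((-1 : ℂ)) 2]
  norm_num

lemma geom_zero {q : ℕ} {ω : ℂ} (h : ω ^ q = 1) (h1 : ω ≠ 1) : ∑ i ∈ range q, ω ^ i = 0 := by
  have h2 := mul_geom_sum ω q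
  rw [h, sub_self] at h2
  rcases mul_eq_zero.1 h2 with h3 | h3
  · exact absurd (sub_eq_zero.1 h3) h1
  · exact h3

/-- the sum of the first `m` positive powers -/
noncomputable def S (ω : ℂ) (m : ℕ) : ℂ := ∑ i ∈ range m, ω ^ (i + 1)

lemma S_blocks {q : ℕ} {ω : ℂ} (h : ω ^ q = 1) (Q R : ℕ) : S ω (q * Q + R) = Q * S ω q + S ω R := by
  unfold S
  rw [sum_blocks]
  congr 1
  · rw [Finset.sum_congr rfl (g := fun _ => ∑ i ∈ range q, ω ^ (i + 1)), Finset.sum_const,
      Finset.card_range, nsmul_eq_mul]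
    intro j _
    refine Finset.sum_congr rfl fun r _ => ?_
    rw [add_assoc, pow_add, pow_mul, h, one_pow, one_mul]
  · refine Finset.sum_congr rfl fun r _ => ?_
    rw [add_assoc, pow_add, pow_mul, h, one_pow, one_mul]

/-- the main computation for one root of unity -/
lemma block {v w q' M' q k n : ℕ} (hw : 1 ≤ w) (hwv : w < v) (hq : q = v * q' + 1) (hqo : Odd q)
    (hk : k = q * (w * M') + w * q') (hn : n = q * (v * M' + 1)) {ω : ℂ} (hω : ω ^ q = 1)
    (h0 : M' = 0 → ω ≠ 1) :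
    (v : ℂ) * ∑ i ∈ range k, (-1) ^ i * (ω ^ (i + 1) *
        ((-1) ^ ((k - 1 - i) % q) * (((v * M').choose ((k - 1 - i) / q) : ℕ) : ℂ))) =
      (-1) ^ (k - 1) * (((-1) ^ (w * M') * (((v * M').choose (w * M') : ℕ) : ℂ)) *
        (v * S ω k - w * S ω n)) := by
  have hωne : ω ≠ 0 := by
    rintro rfl
    rw [zero_pow (by omega)] at hω
    exact zero_ne_one hω
  have hr : w * q' < q := by
    have : w * q' ≤ v * q' := Nat.mul_le_mul_right _ hwv.le
    omega
  set ν : ℂ := ω⁻¹ with hν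
  have hνq : ν ^ q = 1 := by rw [hν, inv_pow, hω, inv_one]
  -- reflect the sum
  have e1 : ∑ i ∈ range k, (-1) ^ i * (ω ^ (i + 1) *
        ((-1) ^ ((k - 1 - i) % q) * (((v * M').choose ((k - 1 - i) / q) : ℕ) : ℂ))) =
      (-1) ^ (k - 1) * (ω ^ k * ∑ l ∈ range k,
        (-1) ^ (l / q) * (((v * M').choose (l / q) : ℕ) : ℂ) * ν ^ l) := by
    rw [← Finset.sum_range_reflect, Finset.mul_sum, Finset.mul_sum]
    refine Finset.sum_congr rfl fun l hl => ?_
    rw [Finset.mem_range] at hl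
    have h1 : k - 1 - (k - 1 - l) = l := by omega
    have h2 : k - 1 - l + 1 = k - l := by omega
    rw [h1, h2, ← sgn hqo l]
    have h3 : ((-1 : ℂ)) ^ (k - 1) = (-1) ^ (k - 1 - l) * (-1) ^ l := by
      rw [← pow_add]; congr 1; omega
    have h4 : ω ^ k * ν ^ l = ω ^ (k - l) := by
      have : ω ^ k = ω ^ (k - l) * ω ^ l := by rw [← pow_add]; congr 1; omega
      rw [this, hν, mul_assoc, ← mul_pow, mul_inv_cancel₀ hωne, one_pow, mul_one]
    have h5 : ((-1 : ℂ)) ^ l * (-1) ^ l = 1 := by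
      rw [← pow_add, ← two_mul, pow_mul]; norm_num
    rw [h3, ← h4]
    linear_combination (-(((-1 : ℂ)) ^ (k - 1 - l) * (ω ^ k * ν ^ l) *
      ((-1) ^ (l % q) * (((v * M').choose (l / q) : ℕ) : ℂ)))) * h5
  have e2 : ∑ l ∈ range k, (-1) ^ (l / q) * (((v * M').choose (l / q) : ℕ) : ℂ) * ν ^ l =
      (∑ j ∈ range (w * M'), (-1) ^ j * ((v * M').choose j : ℂ)) * (∑ r ∈ range q, ν ^ r) +
        ((-1) ^ (w * M') * (((v * M').choose (w * M') : ℕ) : ℂ)) * ∑ r ∈ range (w * q'), ν ^ r := by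
    rw [hk, sum_blocks, Finset.sum_mul, Finset.mul_sum]
    congr 1
    · refine Finset.sum_congr rfl fun j _ => ?_
      rw [Finset.mul_sum]
      refine Finset.sum_congr rfl fun r hr' => ?_
      rw [div_blk j r (Finset.mem_range.1 hr'), pow_add, pow_mul, hνq, one_pow, one_mul]
    · refine Finset.sum_congr rfl fun r hr' => ?_
      have e : ν ^ (q * (w * M') + r) = ν ^ r := by rw [pow_add, pow_mul, hνq, one_pow, one_mul]
      rw [div_blk _ r (lt_trans (Finset.mem_range.1 hr') hr), e]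
  have e3 : ω ^ k * ∑ r ∈ range q, ν ^ r = S ω q := by
    unfold S
    by_cases h1 : ω = 1
    · rw [hν, h1]; simp
    · rw [geom_zero hνq (fun h => h1 (inv_eq_one.1 (hν ▸ h))), mul_zero]
      have := geom_zero hω h1
      simp_rw [pow_succ]
      rw [← Finset.sum_mul, this, zero_mul]
  have e4 : ω ^ k * ∑ r ∈ range (w * q'), ν ^ r = S ω (w * q') := by
    unfold S
    rw [hk, pow_add, pow_mul, hω, one_pow, one_mul, Finset.mul_sum, ← Finset.sum_range_reflect]
    refine Finset.sum_congr rfl fun l hl => ?_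
    rw [Finset.mem_range] at hl
    have h2 : w * q' = (w * q' - 1 - l) + (l + 1) := by omega
    have h3 : ω ^ (w * q') = ω ^ (w * q' - 1 - l) * ω ^ (l + 1) := by rw [← pow_add, ← h2]
    rw [h3, hν, mul_comm (ω ^ (w * q' - 1 - l)), mul_assoc, ← mul_pow, mul_inv_cancel₀ hωne, one_pow,
      mul_one]
  have e5 : S ω k = (w * M' : ℕ) * S ω q + S ω (w * q') := by rw [hk]; exact S_blocks hω _ _
  have e6 : S ω n = (v * M' + 1 : ℕ) * S ω q := by
    rw [hn, ← Nat.add_zero (q * (v * M' + 1)), S_blocks hω]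
    unfold S
    simp
  rw [e1, e2, e5, e6]
  rcases Nat.eq_zero_or_pos M' with hM | hM
  · have hS : S ω q = 0 := by
      unfold S
      simp_rw [pow_succ]
      rw [← Finset.sum_mul, geom_zero hω (h0 hM), zero_mul]
    rw [hS] at e3
    rw [hS]
    linear_combination ((v : ℂ) * (-1) ^ (k - 1) *
      (∑ j ∈ range (w * M'), (-1) ^ j * ((v * M').choose j : ℂ))) * e3 +
      ((v : ℂ) * (-1) ^ (k - 1) * ((-1) ^ (w * M') * (((v * M').choose (w * M') : ℕ) : ℂ))) * e4
  · have h6 := alt_sum hw hM hwv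
    push_cast
    linear_combination ((v : ℂ) * (-1) ^ (k - 1) *
      (∑ j ∈ range (w * M'), (-1) ^ j * ((v * M').choose j : ℂ))) * e3 +
      ((v : ℂ) * (-1) ^ (k - 1) * ((-1) ^ (w * M') * (((v * M').choose (w * M') : ℕ) : ℂ))) * e4 +
      ((-1) ^ (k - 1) * S ω q) * h6

end Run7.h840.OD
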