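import Mathlib
import Pool.Agent.R865.DS.C

/-!
# MP_9415b6_co, Q2: subset-sum designs on `ℤ_n` minus zero, blocks smaller than all prime factors

Q2 of the problem for all triples `(n, k, x)` such that `k` or `n - 1 - k` is smaller than the
smallest prime factor of `n`; this contains all triples with `n` prime.

Let `a k z`, `b k z` be the numbers of the `k`-subsets with sum `z` of `ℤ_n`, of `ℤ_n` minus zero,
and `N k x y` the number of those of the latter with sum `x` which contain `y`.  Then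
`a (k+1) z = b (k+1) z + b k z` and `N (k+1) x y + N k (x-y) y = b k (x-y)` for `y ≠ 0`, and
`a k z` does not depend on `z` for `gcd k n = 1` (translate).  So for `k < minFac n` the number
`N k x y` is a constant plus or minus the number of the `i` in `[1, k]` with `i y = x`.
-/

set_option autoImplicit false

namespace Run7.h840.OD.Small
open Finset

/-- `B_k^{x,*}`: the `k`-element subsets of `ℤ/n` minus zero with sum `x`. -/
def Blocks (n k : ℕ) [NeZero n] (x : ZMod n) : Finset (Finset (ZMod n)) :=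
  (((univ : Finset (ZMod n)).erase 0).powersetCard k).filter (fun T => ∑ t ∈ T, t = x)

/-- `(ℤ/n minus zero, B_k^{x,*})` is a 1-design: there is a block, and every nonzero point lies in
the same number of blocks. -/
def IsOneDesign (n k : ℕ) [NeZero n] (x : ZMod n) : Prop :=
  (Blocks n k x).Nonempty ∧
    ∃ r : ℕ, ∀ y : ZMod n, y ≠ 0 → ((Blocks n k x).filter (fun T => y ∈ T)).card = r

variable {n : ℕ} [NeZero n]

/-- the number of the `k`-subsets of `ℤ/n` with sum `z` -/
def a (n k : ℕ) [NeZero n] (z : ZMod n) : ℕ :=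
  (((univ : Finset (ZMod n)).powersetCard k).filter (fun T => ∑ t ∈ T, t = z)).card

/-- the number of the blocks -/
def b (n k : ℕ) [NeZero n] (z : ZMod n) : ℕ := (Blocks n k z).card

/-- the number of the blocks containing `y` -/
def N (n k : ℕ) [NeZero n] (x y : ZMod n) : ℕ := ((Blocks n k x).filter (fun T => y ∈ T)).card

lemma mem_blocks {k : ℕ} {x : ZMod n} {T : Finset (ZMod n)} :
    T ∈ Blocks n k x ↔ (0 : ZMod n) ∉ T ∧ T.card = k ∧ ∑ t ∈ T, t = x := by
  rw [Blocks, Finset.mem_filter, Finset.mem_powersetCard]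
  constructor
  · rintro ⟨⟨h1, h2⟩, h3⟩
    exact ⟨fun h => (Finset.mem_erase.1 (h1 h)).1 rfl, h2, h3⟩
  · rintro ⟨h1, h2, h3⟩
    refine ⟨⟨fun t ht => Finset.mem_erase.2 ⟨?_, Finset.mem_univ _⟩, h2⟩, h3⟩
    rintro rfl
    exact h1 ht

lemma a_translate {k : ℕ} (z s : ZMod n) : a n k z = a n k (z + k * s) := by
  classical
  unfold a
  apply Finset.card_nbij' (fun T => T.map (Equiv.addRight s).toEmbedding)
    (fun T => T.map (Equiv.subRight s).toEmbedding)
  · intro T hT
    simp only [Finset.coe_filter, Finset.mem_powersetCard, Set.mem_ofPred_eq] at hT ⊢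
    obtain ⟨⟨-, h1⟩, h2⟩ := hT
    refine ⟨⟨Finset.subset_univ _, by rw [Finset.card_map, h1]⟩, ?_⟩
    rw [Finset.sum_map]
    simp only [Equiv.coe_toEmbedding, Equiv.coe_addRight]
    rw [Finset.sum_add_distrib, Finset.sum_const, h1, h2, nsmul_eq_mul]
  · intro T hT
    simp only [Finset.coe_filter, Finset.mem_powersetCard, Set.mem_ofPred_eq] at hT ⊢
    obtain ⟨⟨-, h1⟩, h2⟩ := hT
    refine ⟨⟨Finset.subset_univ _, by rw [Finset.card_map, h1]⟩, ?_⟩
    rw [Finset.sum_map]
    simp only [Equiv.coe_toEmbedding, Equiv.subRight_apply]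
    rw [Finset.sum_sub_distrib, Finset.sum_const, h1, h2, nsmul_eq_mul]
    ring
  · intro T _
    simp only [Finset.map_map]
    convert Finset.map_refl
    ext y
    simp
  · intro T _
    simp only [Finset.map_map]
    convert Finset.map_refl
    ext y
    simp

lemma a_const {k : ℕ} (hk : Nat.Coprime k n) (z z' : ZMod n) : a n k z = a n k z' := by
  have h := a_translate (k := k) z (((ZMod.unitOfCoprime k hk)⁻¹ : (ZMod n)ˣ) * (z' - z))
  rw [h]
  congr 1
  have h2 : (k : ZMod n) = (ZMod.unitOfCoprime k hk : (ZMod n)ˣ) := (ZMod.coe_unitOfCoprime k hk).symm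
  rw [← mul_assoc]
  nth_rewrite 1 [h2]
  rw [Units.mul_inv]
  ring

lemma a_succ (k : ℕ) (z : ZMod n) : a n (k + 1) z = b n (k + 1) z + b n k z := by
  classical
  unfold a b
  rw [← Finset.card_filter_add_card_filter_not (s := (((univ : Finset (ZMod n)).powersetCard (k + 1)).filter
    (fun T => ∑ t ∈ T, t = z))) (fun T => (0 : ZMod n) ∉ T)]
  congr 1
  · congr 1
    ext T
    rw [mem_blocks, Finset.mem_filter, Finset.mem_filter, Finset.mem_powersetCard]
    constructor
    · rintro ⟨⟨⟨-, h1⟩, h2⟩, h3⟩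
      exact ⟨h3, h1, h2⟩
    · rintro ⟨h3, h1, h2⟩
      exact ⟨⟨⟨Finset.subset_univ _, h1⟩, h2⟩, h3⟩
  · apply Finset.card_nbij' (fun T => T.erase 0) (fun T => insert 0 T)
    · intro T hT
      simp only [Finset.coe_filter, Finset.mem_filter, Finset.mem_powersetCard, Set.mem_ofPred_eq,
        not_not] at hT
      obtain ⟨⟨⟨-, h1⟩, h2⟩, h3⟩ := hT
      rw [Finset.mem_coe, mem_blocks]
      refine ⟨Finset.notMem_erase _ _, by rw [Finset.card_erase_of_mem h3, h1]; rfl, ?_⟩
      rw [← h2, ← Finset.add_sum_erase T (fun t => t) h3, zero_add]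
    · intro T hT
      rw [Finset.mem_coe, mem_blocks] at hT
      obtain ⟨h1, h2, h3⟩ := hT
      simp only [Finset.coe_filter, Finset.mem_filter, Finset.mem_powersetCard, Set.mem_ofPred_eq,
        not_not]
      refine ⟨⟨⟨Finset.subset_univ _, by rw [Finset.card_insert_of_notMem h1, h2]⟩, ?_⟩,
        Finset.mem_insert_self _ _⟩
      rw [Finset.sum_insert h1, h3, zero_add]
    · intro T hT
      simp only [Finset.coe_filter, Finset.mem_filter, Finset.mem_powersetCard, Set.mem_ofPred_eq,
        not_not] at hT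
      exact Finset.insert_erase hT.2
    · intro T hT
      rw [Finset.mem_coe, mem_blocks] at hT
      exact Finset.erase_insert hT.1

lemma N_succ (k : ℕ) (x : ZMod n) {y : ZMod n} (hy : y ≠ 0) :
    N n (k + 1) x y + N n k (x - y) y = b n k (x - y) := by
  classical
  unfold N b
  rw [← Finset.card_filter_add_card_filter_not (s := Blocks n k (x - y)) (fun T => y ∉ T)]
  congr 1
  · apply Finset.card_nbij' (fun T => T.erase y) (fun T => insert y T)
    · intro T hT
      simp only [Finset.coe_filter, Set.mem_ofPred_eq, mem_blocks] at hT ⊢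
      obtain ⟨⟨h0, h1, h2⟩, h3⟩ := hT
      refine ⟨⟨fun h => h0 (Finset.mem_of_mem_erase h),
        by rw [Finset.card_erase_of_mem h3, h1]; rfl, ?_⟩, Finset.notMem_erase _ _⟩
      rw [← h2, ← Finset.add_sum_erase T (fun t => t) h3]
      ring
    · intro T hT
      simp only [Finset.coe_filter, Set.mem_ofPred_eq, mem_blocks] at hT ⊢
      obtain ⟨⟨h0, h1, h2⟩, h3⟩ := hT
      refine ⟨⟨fun h => ?_, by rw [Finset.card_insert_of_notMem h3, h1], ?_⟩,
        Finset.mem_insert_self _ _⟩
      · rcases Finset.mem_insert.1 h with h | h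
        · exact hy h.symm
        · exact h0 h
      · rw [Finset.sum_insert h3, h2]
        ring
    · intro T hT
      simp only [Finset.coe_filter, Set.mem_ofPred_eq] at hT
      exact Finset.insert_erase hT.2
    · intro T hT
      simp only [Finset.coe_filter, Set.mem_ofPred_eq] at hT
      exact Finset.erase_insert hT.2
  · congr 1
    ext T
    simp

lemma b_form (k : ℕ) (hk : k < n.minFac) :
    ∃ B : ℤ, ∀ z : ZMod n, (b n k z : ℤ) = B + (-1) ^ k * (if z = 0 then 1 else 0) := by
  classical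
  induction k with
  | zero =>
    refine ⟨0, fun z => ?_⟩
    have h : b n 0 z = if z = 0 then 1 else 0 := by
      unfold b
      split_ifs with hz
      · rw [Finset.card_eq_one]
        refine ⟨∅, ?_⟩
        ext T
        rw [mem_blocks, Finset.mem_singleton]
        constructor
        · rintro ⟨-, h, -⟩
          exact Finset.card_eq_zero.1 h
        · rintro rfl
          exact ⟨by simp, rfl, by rw [Finset.sum_empty, hz]⟩
      · rw [Finset.card_eq_zero]
        ext T
        rw [mem_blocks]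
        simp only [Finset.notMem_empty, iff_false]
        rintro ⟨-, h, h2⟩
        rw [Finset.card_eq_zero.1 h, Finset.sum_empty] at h2
        exact hz h2.symm
    rw [h]
    push_cast
    ring
  | succ k ih =>
    obtain ⟨B, hB⟩ := ih (by omega)
    have hco : Nat.Coprime (k + 1) n := by
      rw [Nat.coprime_comm]
      rcases eq_or_ne n 1 with h1 | h1
      · rw [h1]; exact Nat.coprime_one_left _
      · by_contra hcon
        obtain ⟨p, hp, hpn, hpk⟩ := Nat.Prime.not_coprime_iff_dvd.1 hcon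
        have h2 := Nat.minFac_le_of_dvd hp.two_le hpn
        have h3 := Nat.le_of_dvd (by omega) hpk
        omega
    refine ⟨(a n (k + 1) 0 : ℤ) - B, fun z => ?_⟩
    have h1 := a_succ (n := n) k z
    have h2 := hB z
    have h3 := a_const hco z 0
    have h4 : (a n (k + 1) 0 : ℤ) = b n (k + 1) z + b n k z := by
      rw [← h3, h1]; push_cast; ring
    rw [pow_succ]
    linear_combination (-1 : ℤ) * h4 - h2

lemma N_form (k : ℕ) (hk : k ≤ n.minFac) :
    ∃ C : ℤ, ∀ x y : ZMod n, y ≠ 0 → (N n k x y : ℤ) =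
      C + (-1) ^ (k + 1) * (((Finset.range k).filter (fun i => ((i + 1 : ℕ) : ZMod n) * y = x)).card : ℤ) := by
  classical
  induction k with
  | zero =>
    refine ⟨0, fun x y hy => ?_⟩
    have h : N n 0 x y = 0 := by
      unfold N
      rw [Finset.card_eq_zero]
      ext T
      rw [Finset.mem_filter, mem_blocks]
      simp only [Finset.notMem_empty, iff_false]
      rintro ⟨⟨-, h, -⟩, h2⟩
      rw [Finset.card_eq_zero.1 h] at h2
      exact Finset.notMem_empty _ h2
    rw [h]
    simp
  | succ k ih =>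
    obtain ⟨C, hC⟩ := ih (by omega)
    obtain ⟨B, hB⟩ := b_form (n := n) k (by omega)
    refine ⟨B - C, fun x y hy => ?_⟩
    have h1 := N_succ k x hy
    have h2 := hC (x - y) y hy
    have h3 := hB (x - y)
    have h4 : (N n (k + 1) x y : ℤ) + N n k (x - y) y = b n k (x - y) := by exact_mod_cast h1
    have h5 : (((Finset.range (k + 1)).filter (fun i => ((i + 1 : ℕ) : ZMod n) * y = x)).card : ℤ) =
        (if x - y = 0 then 1 else 0) +
        (((Finset.range k).filter (fun i => ((i + 1 : ℕ) : ZMod n) * y = x - y)).card : ℤ) := by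
      rw [Finset.card_filter, Finset.card_filter, Finset.sum_range_succ', Nat.cast_add, add_comm]
      congr 1
      · have e : (((0 + 1 : ℕ) : ZMod n) * y = x) ↔ x - y = 0 := by
          rw [zero_add, Nat.cast_one, one_mul, sub_eq_zero, eq_comm]
        by_cases hxy : x - y = 0
        · rw [if_pos (e.2 hxy), if_pos hxy, Nat.cast_one]
        · rw [if_neg (fun h => hxy (e.1 h)), if_neg hxy, Nat.cast_zero]
      · congr 1
        apply Finset.sum_congr rfl
        intro i _
        have e : (((i + 1 + 1 : ℕ) : ZMod n) * y = x) ↔ (((i + 1 : ℕ) : ZMod n) * y = x - y) := by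
          rw [Nat.cast_add (i + 1) 1, Nat.cast_one, add_mul, one_mul, eq_sub_iff_add_eq]
        simp only [e]
    rw [h5, pow_succ, pow_succ]
    rw [pow_succ] at h2
    linear_combination h4 - h2 + h3

omit [NeZero n] in
lemma coprime_of_lt {k : ℕ} (h0 : 0 < k) (hk : k < n.minFac) : Nat.Coprime k n := by
  rw [Nat.coprime_comm]
  by_contra hcon
  obtain ⟨p, hp, hpn, hpk⟩ := Nat.Prime.not_coprime_iff_dvd.1 hcon
  have h2 := Nat.minFac_le_of_dvd hp.two_le hpn
  have h3 := Nat.le_of_dvd h0 hpk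
  omega

omit [NeZero n] in
lemma mul_eq_iff {i : ℕ} (h0 : 0 < i) (hi : i < n.minFac) (x y : ZMod n) :
    (i : ZMod n) * y = x ↔
      y = ((ZMod.unitOfCoprime i (coprime_of_lt h0 hi))⁻¹ : (ZMod n)ˣ) * x := by
  have h2 : (i : ZMod n) = (ZMod.unitOfCoprime i (coprime_of_lt h0 hi) : (ZMod n)ˣ) :=
    (ZMod.coe_unitOfCoprime i _).symm
  nth_rewrite 1 [h2]
  constructor
  · rintro rfl
    rw [Units.inv_mul_cancel_left]
  · rintro rfl
    rw [Units.mul_inv_cancel_left]

/-- the number of the `i` in `[1, k]` with `i y = x` -/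
def cnt (n k : ℕ) [NeZero n] (x y : ZMod n) : ℕ :=
  ((Finset.range k).filter (fun i => ((i + 1 : ℕ) : ZMod n) * y = x)).card

lemma cnt_zero {k : ℕ} (hk : k < n.minFac) {y : ZMod n} (hy : y ≠ 0) : cnt n k 0 y = 0 := by
  unfold cnt
  rw [Finset.card_eq_zero, Finset.filter_eq_empty_iff]
  intro i hi h
  rw [Finset.mem_range] at hi
  rw [mul_eq_iff (Nat.succ_pos i) (by omega), mul_zero] at h
  exact hy h

lemma cnt_sum {k : ℕ} (hk : k < n.minFac) {x : ZMod n} (hx : x ≠ 0) :
    ∑ y ∈ (univ : Finset (ZMod n)).erase 0, cnt n k x y = k := by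
  classical
  unfold cnt
  simp_rw [Finset.card_filter]
  rw [Finset.sum_comm]
  rw [Finset.sum_congr rfl (g := fun _ => 1), Finset.sum_const, Finset.card_range, smul_eq_mul,
    mul_one]
  intro i hi
  rw [Finset.mem_range] at hi
  have hi' : i + 1 < n.minFac := by omega
  rw [Finset.sum_eq_single
    (((ZMod.unitOfCoprime (i + 1) (coprime_of_lt (Nat.succ_pos i) hi'))⁻¹ : (ZMod n)ˣ) * x)]
  · rw [if_pos ((mul_eq_iff (Nat.succ_pos i) hi' _ _).2 rfl)]
  · intro y _ hy
    rw [if_neg (fun h => hy ((mul_eq_iff (Nat.succ_pos i) hi' _ _).1 h))]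
  · intro h
    exfalso
    apply h
    rw [Finset.mem_erase]
    exact ⟨fun h2 => hx ((Units.mul_right_eq_zero _).1 h2), Finset.mem_univ _⟩

omit [NeZero n] in
lemma one_ne (hn : 2 ≤ n) : (1 : ZMod n) ≠ 0 := by
  have : Fact (1 < n) := ⟨hn⟩
  exact one_ne_zero

lemma small_ne (hn : 2 ≤ n) {k : ℕ} (hk : 1 ≤ k) (hkn : k < n - 1) (hs : k < n.minFac)
    {x : ZMod n} (h : IsOneDesign n k x) : x = 0 := by
  by_contra hx
  obtain ⟨-, r, hr⟩ := h
  obtain ⟨C, hC⟩ := N_form (n := n) k hs.le
  have hconst : ∀ y : ZMod n, y ≠ 0 → cnt n k x y = cnt n k x 1 := by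
    intro y hy
    have h1 := hC x y hy
    have h2 := hC x 1 (one_ne hn)
    have h3 : N n k x y = N n k x 1 := (hr y hy).trans (hr 1 (one_ne hn)).symm
    rw [h3, h2] at h1
    have h4 : ((-1 : ℤ) ^ (k + 1)) ≠ 0 := pow_ne_zero _ (by norm_num)
    have h5 := mul_left_cancel₀ h4 (add_left_cancel h1)
    have h6 : (cnt n k x 1 : ℤ) = cnt n k x y := h5
    exact_mod_cast h6.symm
  have hsum := cnt_sum hs hx
  rw [Finset.sum_congr rfl (g := fun _ => cnt n k x 1)
    (fun y hy => hconst y (Finset.mem_erase.1 hy).1), Finset.sum_const,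
    Finset.card_erase_of_mem (Finset.mem_univ _), Finset.card_univ, ZMod.card, smul_eq_mul] at hsum
  rcases Nat.eq_zero_or_pos (cnt n k x 1) with h0 | h0
  · rw [h0] at hsum; omega
  · have := Nat.le_mul_of_pos_right (n - 1) h0
    omega

lemma sum_univ_odd (ho : Odd n) : ∑ t : ZMod n, t = 0 := by
  have h1 : ∑ t : ZMod n, -t = ∑ t : ZMod n, t := Equiv.sum_comp (Equiv.neg (ZMod n)) (fun t => t)
  rw [Finset.sum_neg_distrib] at h1
  have h2 : ((2 : ℕ) : ZMod n) * ∑ t : ZMod n, t = 0 := by
    rw [Nat.cast_two, two_mul]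
    nth_rewrite 1 [← h1]
    rw [neg_add_cancel]
  have hco : Nat.Coprime 2 n := (Nat.coprime_two_left).2 ho
  have h3 : ((2 : ℕ) : ZMod n) = (ZMod.unitOfCoprime 2 hco : (ZMod n)ˣ) :=
    (ZMod.coe_unitOfCoprime 2 hco).symm
  rw [h3] at h2
  exact (Units.mul_right_eq_zero _).1 h2

lemma sum_erase : ∑ t ∈ (univ : Finset (ZMod n)).erase 0, t = ∑ t : ZMod n, t := by
  rw [← Finset.add_sum_erase univ (fun t : ZMod n => t) (Finset.mem_univ 0), zero_add]

lemma sub_erase {k : ℕ} {x : ZMod n} {T : Finset (ZMod n)} (hT : T ∈ Blocks n k x) :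
    T ⊆ (univ : Finset (ZMod n)).erase 0 := by
  intro t ht
  rw [Finset.mem_erase]
  refine ⟨?_, Finset.mem_univ _⟩
  rintro rfl
  exact (mem_blocks.1 hT).1 ht

lemma compl_mem {k : ℕ} {x : ZMod n} {T : Finset (ZMod n)} (hT : T ∈ Blocks n k x) :
    (univ : Finset (ZMod n)).erase 0 \ T ∈ Blocks n (n - 1 - k) (∑ t : ZMod n, t - x) := by
  have hsub := sub_erase hT
  obtain ⟨h0, h1, h2⟩ := mem_blocks.1 hT
  rw [mem_blocks]
  refine ⟨fun h => ?_, ?_, ?_⟩
  · exact (Finset.mem_erase.1 (Finset.mem_sdiff.1 h).1).1 rfl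
  · rw [Finset.card_sdiff_of_subset hsub, Finset.card_erase_of_mem (Finset.mem_univ _),
      Finset.card_univ, ZMod.card, h1]
  · rw [eq_sub_iff_add_eq, ← h2, Finset.sum_sdiff hsub, sum_erase]

lemma compl_design {k : ℕ} (hk : k ≤ n - 1) {x : ZMod n} (h : IsOneDesign n k x) :
    IsOneDesign n (n - 1 - k) (∑ t : ZMod n, t - x) := by
  classical
  obtain ⟨⟨T, hT⟩, r, hr⟩ := h
  refine ⟨⟨_, compl_mem hT⟩, (Blocks n k x).card - r, fun y hy => ?_⟩
  have h1 : ((Blocks n (n - 1 - k) (∑ t : ZMod n, t - x)).filter (fun T => y ∈ T)).card =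
      ((Blocks n k x).filter (fun T => y ∉ T)).card := by
    apply Finset.card_nbij' (fun T => (univ : Finset (ZMod n)).erase 0 \ T)
      (fun T => (univ : Finset (ZMod n)).erase 0 \ T)
    · intro T hT
      simp only [Finset.coe_filter, Set.mem_ofPred_eq] at hT ⊢
      have h2 := compl_mem hT.1
      rw [Nat.sub_sub_self hk, sub_sub_cancel] at h2
      exact ⟨h2, fun h => (Finset.mem_sdiff.1 h).2 hT.2⟩
    · intro T hT
      simp only [Finset.coe_filter, Set.mem_ofPred_eq] at hT ⊢
      exact ⟨compl_mem hT.1, Finset.mem_sdiff.2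
        ⟨Finset.mem_erase.2 ⟨hy, Finset.mem_univ _⟩, hT.2⟩⟩
    · intro T hT
      simp only [Finset.coe_filter, Set.mem_ofPred_eq] at hT
      exact Finset.sdiff_sdiff_eq_self (sub_erase hT.1)
    · intro T hT
      simp only [Finset.coe_filter, Set.mem_ofPred_eq] at hT
      exact Finset.sdiff_sdiff_eq_self (sub_erase hT.1)
  rw [h1, ← hr y hy]
  have h3 := Finset.card_filter_add_card_filter_not (s := Blocks n k x) (fun T => y ∈ T)
  omega

lemma nonempty_of {k : ℕ} (h2 : 2 ≤ k) (h3 : k ≤ n - 3) (x : ZMod n) :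
    (Blocks n k x).Nonempty := by
  obtain ⟨D, hD, hs⟩ := Pool.Agent.R865.DS.cover (N := n) (κ := k) (by
    obtain ⟨m, hm⟩ : ∃ m, n = k + m + 3 := ⟨n - 3 - k, by omega⟩
    have e : n - 1 - k = m + 2 := by omega
    rw [e]
    nlinarith) (by omega) x
  exact ⟨D, Finset.mem_filter.2 ⟨hD, hs⟩⟩

lemma small_zero (hn : 2 ≤ n) {k : ℕ} (hs : k < n.minFac) (h2 : 2 ≤ k) (h3 : k ≤ n - 3) :
    IsOneDesign n k 0 := by
  refine ⟨nonempty_of h2 h3 0, N n k 0 1, fun y hy => ?_⟩
  obtain ⟨C, hC⟩ := N_form (n := n) k hs.le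
  have h4 := hC 0 y hy
  have h5 := hC 0 1 (one_ne hn)
  have h6 : (((Finset.range k).filter (fun i => ((i + 1 : ℕ) : ZMod n) * y = 0)).card : ℤ) = 0 := by
    rw [Nat.cast_eq_zero]
    exact cnt_zero hs hy
  have h7 : (((Finset.range k).filter (fun i => ((i + 1 : ℕ) : ZMod n) * 1 = 0)).card : ℤ) = 0 := by
    rw [Nat.cast_eq_zero]
    exact cnt_zero hs (one_ne hn)
  rw [h6] at h4
  rw [h7] at h5
  have h8 : (N n k 0 y : ℤ) = N n k 0 1 := by rw [h4, h5]
  exact_mod_cast h8

lemma small_iff (hn : 2 ≤ n) {k : ℕ} (hk : 1 ≤ k) (hkn : k < n - 1) (hs : k < n.minFac)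
    (x : ZMod n) : IsOneDesign n k x ↔ Odd n ∧ x = 0 ∧ 2 ≤ k ∧ k ≤ n - 3 := by
  constructor
  · intro h
    have hx := small_ne hn hk hkn hs h
    subst hx
    obtain ⟨T, hT⟩ := h.1
    obtain ⟨h0, h1, h2⟩ := mem_blocks.1 hT
    have hk1 : k ≠ 1 := by
      rintro rfl
      obtain ⟨t, rfl⟩ := Finset.card_eq_one.1 h1
      rw [Finset.sum_singleton] at h2
      exact h0 (by rw [h2]; exact Finset.mem_singleton_self _)
    have ho : Odd n := by
      rw [← Nat.not_even_iff_odd]
      intro he
      have := (Nat.minFac_eq_two_iff n).2 he.two_dvd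
      omega
    refine ⟨ho, rfl, by omega, ?_⟩
    by_contra hcon
    have hkn2 : k = n - 2 := by omega
    have h3 := compl_mem hT
    rw [sum_univ_odd ho, sub_zero] at h3
    obtain ⟨h4, h5, h6⟩ := mem_blocks.1 h3
    have e : n - 1 - k = 1 := by omega
    rw [e] at h5
    obtain ⟨t, ht⟩ := Finset.card_eq_one.1 h5
    rw [ht, Finset.sum_singleton] at h6
    apply h4
    rw [ht, h6]
    exact Finset.mem_singleton_self _
  · rintro ⟨-, rfl, h2, h3⟩
    exact small_zero hn hs h2 h3

/-- **Q2 for blocks, or complements of blocks, with fewer elements than the smallest prime factor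
of `n`** (in particular for all triples with `n` prime). -/
theorem small_main (n k : ℕ) [NeZero n] (hn : 2 ≤ n) (hk : 1 ≤ k) (hkn : k ≤ n - 1)
    (hs : k < n.minFac ∨ n - 1 - k < n.minFac) (x : ZMod n) :
    IsOneDesign n k x ↔
      (k = n - 1 ∧ x = ∑ t : ZMod n, t) ∨ (Odd n ∧ x = 0 ∧ 2 ≤ k ∧ k ≤ n - 3) := by
  rcases Nat.lt_or_ge k (n - 1) with hlt | hge
  · have hne : ¬ (k = n - 1 ∧ x = ∑ t : ZMod n, t) := fun h => by omega
    rw [or_iff_right hne]
    rcases hs with hs | hs
    · exact small_iff hn hk hlt hs x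
    · constructor
      · intro h
        obtain ⟨h1, h2, h3, h4⟩ := (small_iff hn (by omega) (by omega) hs _).1 (compl_design hkn h)
        rw [sum_univ_odd h1, zero_sub, neg_eq_zero] at h2
        exact ⟨h1, h2, by omega, by omega⟩
      · rintro ⟨h1, rfl, h3, h4⟩
        have h5 := compl_design (by omega) (small_zero hn hs (by omega) (by omega))
        rw [sum_univ_odd h1, sub_zero, Nat.sub_sub_self hkn] at h5
        exact h5
  · have hkk : k = n - 1 := by omega
    have hcard : ((univ : Finset (ZMod n)).erase 0).card = n - 1 := by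
      rw [Finset.card_erase_of_mem (Finset.mem_univ _), Finset.card_univ, ZMod.card]
    constructor
    · rintro ⟨⟨T, hT⟩, -⟩
      left
      refine ⟨hkk, ?_⟩
      have hTe : T = (univ : Finset (ZMod n)).erase 0 :=
        Finset.eq_of_subset_of_card_le (sub_erase hT) (by
          rw [hcard, (mem_blocks.1 hT).2.1, hkk])
      rw [← sum_erase, ← hTe]
      exact (mem_blocks.1 hT).2.2.symm
    · rintro (⟨-, rfl⟩ | ⟨-, -, -, h4⟩)
      · have hb : ∀ T, T ∈ Blocks n k (∑ t : ZMod n, t) ↔ T = (univ : Finset (ZMod n)).erase 0 := by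
          intro T
          constructor
          · intro hT
            exact Finset.eq_of_subset_of_card_le (sub_erase hT) (by
              rw [hcard, (mem_blocks.1 hT).2.1, hkk])
          · rintro rfl
            rw [mem_blocks]
            exact ⟨Finset.notMem_erase _ _, by rw [hcard, hkk], sum_erase⟩
        refine ⟨⟨_, (hb _).2 rfl⟩, 1, fun y hy => ?_⟩
        rw [Finset.card_eq_one]
        refine ⟨(univ : Finset (ZMod n)).erase 0, ?_⟩
        ext T
        rw [Finset.mem_filter, hb, Finset.mem_singleton]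
        constructor
        · exact fun h => h.1
        · rintro rfl
          exact ⟨rfl, Finset.mem_erase.2 ⟨hy, Finset.mem_univ _⟩⟩
      · omega

end Run7.h840.OD.Small
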