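import Mathlib
import Pool.Agent.R865.DS.A
import Pool.Agent.Run7.h840.OD.Small

set_option autoImplicit false

/-! The Fourier formula for the numbers of blocks, `n` odd. -/

namespace Run7.h840.OD
open Finset Polynomial Run7.h840.OD.Small

variable {n : ℕ} [NeZero n]

omit [NeZero n] in
lemma char_sum (e : AddChar (ZMod n) ℂ) (A : Finset (ZMod n)) :
    e (∑ y ∈ A, y) = ∏ y ∈ A, e y := by
  classical
  induction A using Finset.induction_on with
  | empty => rw [Finset.prod_empty, Finset.sum_empty, AddChar.map_zero_eq_one]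
  | insert a s ha ih =>
    rw [Finset.prod_insert ha, Finset.sum_insert ha, ← ih, AddChar.map_add_eq_mul]

lemma prod_all {q M : ℕ} [NeZero q] (hn : n = q * M) (hq : q ∣ n) {ζ : ℂ}
    (hζ : IsPrimitiveRoot ζ q) (e : AddChar (ZMod n) ℂ)
    (he : ∀ y : ZMod n, e y = ζ ^ (ZMod.castHom hq (ZMod q) y).val) :
    ∏ y : ZMod n, (1 + C (e y) * X : ℂ[X]) = (1 - (-X) ^ q) ^ M := by
  have hq0 : 0 < q := Nat.pos_of_ne_zero (NeZero.ne q)
  have h1 : ∏ y : ZMod n, (1 + C (e y) * X : ℂ[X]) =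
      (∏ t : ZMod q, (1 + C (ζ ^ t.val) * X : ℂ[X])) ^
        (Fintype.card (ZMod n) / Fintype.card (ZMod q)) := by
    rw [← Pool.Agent.R865.DS.prod_comp_hom ((ZMod.castHom hq (ZMod q)).toAddMonoidHom)
      (ZMod.castHom_surjective hq) (fun t : ZMod q => (1 + C (ζ ^ t.val) * X : ℂ[X]))]
    refine Finset.prod_congr rfl fun y _ => ?_
    rw [he y]
    rfl
  rw [h1, Pool.Agent.R865.DS.prod_val (fun i => (1 + C (ζ ^ i) * X : ℂ[X])),
    Pool.Agent.R865.DS.prod_roots hq0 hζ, ZMod.card, ZMod.card, hn, Nat.mul_div_cancel_left _ hq0]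

lemma sum_char {q M : ℕ} [NeZero q] (hM : 0 < M) (hn : n = q * M) (hq : q ∣ n) (hqo : Odd q) {ζ : ℂ}
    (hζ : IsPrimitiveRoot ζ q) (e : AddChar (ZMod n) ℂ)
    (he : ∀ y : ZMod n, e y = ζ ^ (ZMod.castHom hq (ZMod q) y).val) (m : ℕ) :
    ∑ A ∈ (univ.erase (0 : ZMod n)).powersetCard m, e (∑ y ∈ A, y) =
      (-1) ^ (m % q) * (((M - 1).choose (m / q) : ℕ) : ℂ) := by
  classical
  have hq0 : 0 < q := Nat.pos_of_ne_zero (NeZero.ne q)
  have h := prod_all hn hq hζ e he
  rw [← Finset.mul_prod_erase univ _ (Finset.mem_univ (0 : ZMod n)), AddChar.map_zero_eq_one] at h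
  have h1 : (1 - (-X : ℂ[X]) ^ q) ^ M = (1 + C 1 * X) * ((∑ i ∈ range q, (-X) ^ i) *
      ∏ y ∈ range (M - 1), (1 + C ((fun _ => (1 : ℂ)) y) * X ^ q : ℂ[X])) := by
    have h2 := mul_neg_geom_sum (-X : ℂ[X]) q
    rw [sub_neg_eq_add] at h2
    have h3 : (1 - (-X : ℂ[X]) ^ q) = 1 + X ^ q := by
      rw [hqo.neg_pow, sub_neg_eq_add]
    rw [C_1, one_mul, ← mul_assoc, h2, h3]
    simp only [C_1, one_mul, Finset.prod_const, Finset.card_range]
    rw [← pow_succ', Nat.sub_add_cancel hM]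
  rw [h1] at h
  have hreg : IsLeftRegular (1 + C 1 * X : ℂ[X]) := by
    rw [C_1, one_mul, add_comm, ← C_1]
    exact (monic_X_add_C (1 : ℂ)).isRegular.left
  have h3 := hreg h
  have h4 := congrArg (fun P => P.coeff m) h3
  rw [Pool.Agent.R865.DS.coeff_prod_one, Pool.Agent.R865.DS.coeff_prod_q _ _ hq0] at h4
  rw [Finset.sum_congr rfl (fun A _ => (char_sum e A)), h4]
  simp

/-- the standard character -/
noncomputable abbrev ψ (n : ℕ) [NeZero n] : AddChar (ZMod n) ℂ := ZMod.stdAddChar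

lemma psi_nsmul (j : ℕ) (a : ZMod n) : ψ n ((j : ZMod n) * a) = ψ n a ^ j := by
  rw [← nsmul_eq_mul, AddChar.map_nsmul_eq_pow]

lemma psi_eq_one {a : ZMod n} : ψ n a = 1 ↔ a = 0 := by
  rw [← AddChar.map_zero_eq_one (ψ n)]
  exact ZMod.injective_stdAddChar.eq_iff

lemma ord_dvd (a : ZMod n) : addOrderOf a ∣ n := by
  have := addOrderOf_dvd_card (x := a)
  rwa [ZMod.card] at this

lemma prim (a : ZMod n) : IsPrimitiveRoot (ψ n a) (addOrderOf a) := by
  constructor
  · rw [← psi_nsmul, psi_eq_one, ← nsmul_eq_mul, addOrderOf_nsmul_eq_zero]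
  · intro l hl
    rw [← psi_nsmul, psi_eq_one, ← nsmul_eq_mul] at hl
    exact addOrderOf_dvd_of_nsmul_eq_zero hl

lemma sum_psi (hno : Odd n) (a : ZMod n) (m : ℕ) :
    ∑ A ∈ (univ.erase (0 : ZMod n)).powersetCard m, ψ n (a * ∑ y ∈ A, y) =
      (-1) ^ (m % addOrderOf a) * (((n / addOrderOf a - 1).choose (m / addOrderOf a) : ℕ) : ℂ) := by
  have hd := ord_dvd a
  have hpos : 0 < addOrderOf a := Nat.pos_of_dvd_of_pos hd (Nat.pos_of_ne_zero (NeZero.ne n))
  have : NeZero (addOrderOf a) := ⟨hpos.ne'⟩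
  have hn : n = addOrderOf a * (n / addOrderOf a) := (Nat.mul_div_cancel' hd).symm
  have hM : 0 < n / addOrderOf a := Nat.div_pos (Nat.le_of_dvd (Nat.pos_of_ne_zero (NeZero.ne n)) hd) hpos
  have hqo : Odd (addOrderOf a) := Odd.of_dvd_nat hno hd
  have h := sum_char hM hn hd hqo (prim a) (AddChar.mulShift (ψ n) a) (fun y => by
    rw [AddChar.mulShift_apply]
    have h1 : a * y = (y.val : ZMod n) * a := by rw [ZMod.natCast_zmod_val, mul_comm]
    rw [h1, psi_nsmul]
    have h2 : (ZMod.castHom hd (ZMod (addOrderOf a)) y).val = y.val % addOrderOf a := by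
      have h3 : y = ((y.val : ℕ) : ZMod n) := (ZMod.natCast_zmod_val y).symm
      rw [h3, map_natCast, ZMod.val_natCast, ← h3]
    rw [h2, ← pow_mod_orderOf (ψ n a) y.val, (prim a).eq_orderOf]) m
  simpa only [AddChar.mulShift_apply] using h

/-- Fourier inversion -/
lemma b_fourier (hno : Odd n) (m : ℕ) (z : ZMod n) :
    (n : ℂ) * (b n m z : ℂ) = ∑ a : ZMod n, ψ n (-(a * z)) *
      ((-1) ^ (m % addOrderOf a) * (((n / addOrderOf a - 1).choose (m / addOrderOf a) : ℕ) : ℂ)) := by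
  classical
  have h0 : ∀ a : ZMod n, ψ n (-(a * z)) *
      ((-1) ^ (m % addOrderOf a) * (((n / addOrderOf a - 1).choose (m / addOrderOf a) : ℕ) : ℂ)) =
      ∑ A ∈ (univ.erase (0 : ZMod n)).powersetCard m, ψ n (-(a * z) + a * ∑ y ∈ A, y) := by
    intro a
    rw [← sum_psi hno, Finset.mul_sum]
    refine Finset.sum_congr rfl fun A _ => ?_
    rw [AddChar.map_add_eq_mul]
  rw [Finset.sum_congr rfl (fun a _ => h0 a), Finset.sum_comm]
  have h : ∀ A ∈ (univ.erase (0 : ZMod n)).powersetCard m,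
      ∑ a : ZMod n, ψ n (-(a * z) + a * ∑ y ∈ A, y) = if ∑ y ∈ A, y = z then (n : ℂ) else 0 := by
    intro A _
    have h1 := AddChar.sum_mulShift (R' := ℂ) ((∑ y ∈ A, y) - z) (ZMod.isPrimitive_stdAddChar n)
    rw [ZMod.card] at h1
    have h2 : ∀ a : ZMod n, -(a * z) + a * ∑ y ∈ A, y = a * ((∑ y ∈ A, y) - z) := fun a => by ring
    simp_rw [h2]
    rw [h1]
    simp only [sub_eq_zero]
    split_ifs <;> simp
  rw [Finset.sum_congr rfl h, ← Finset.sum_filter, Finset.sum_const, nsmul_eq_mul, mul_comm]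
  rfl

lemma N_sum (k : ℕ) : ∀ (x y : ZMod n), y ≠ 0 → (N n k x y : ℂ) =
    ∑ i ∈ range k, (-1) ^ i * (b n (k - 1 - i) (x - ((i + 1 : ℕ) : ZMod n) * y) : ℂ) := by
  induction k with
  | zero =>
    intro x y _
    have h : N n 0 x y = 0 := by
      unfold N
      rw [Finset.card_eq_zero]
      ext T
      rw [Finset.mem_filter, mem_blocks]
      simp only [Finset.notMem_empty, iff_false]
      rintro ⟨⟨-, h, -⟩, h2⟩
      rw [Finset.card_eq_zero.1 h] at h2
      exact Finset.notMem_empty _ h2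
    rw [h]
    simp
  | succ k ih =>
    intro x y hy
    have h1 := N_succ k x hy
    have h4 : (N n (k + 1) x y : ℂ) + N n k (x - y) y = b n k (x - y) := by exact_mod_cast h1
    rw [Finset.sum_range_succ', ← sub_eq_iff_eq_add.2 h4.symm, ih (x - y) y hy]
    have e0 : k + 1 - 1 - 0 = k := by omega
    rw [e0, pow_zero, one_mul, zero_add, Nat.cast_one, one_mul, sub_eq_add_neg, add_comm,
      ← Finset.sum_neg_distrib]
    congr 1
    refine Finset.sum_congr rfl fun i _ => ?_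
    have e1 : k + 1 - 1 - (i + 1) = k - 1 - i := by omega
    have e2 : x - ((i + 1 + 1 : ℕ) : ZMod n) * y = x - y - ((i + 1 : ℕ) : ZMod n) * y := by
      push_cast; ring
    rw [e1, e2, pow_succ]
    ring

end Run7.h840.OD
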