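import Mathlib
import Pool.Agent.Run7.h840.OD.Blk
import Pool.Agent.Run7.h840.OD.Four

set_option autoImplicit false

/-! Averages over the elements of given order, and the sufficiency for proportional block sizes. -/

namespace Run7.h840.OD
open Finset Run7.h840.OD.Small

variable {n : ℕ} [NeZero n]

/-- the elements killed by `s` -/
def A (n s : ℕ) [NeZero n] : Finset (ZMod n) := univ.filter fun a => s • a = 0

lemma sum_A {s : ℕ} (hs : s ∣ n) (c : ZMod n) :
    ∑ a ∈ A n s, ψ n (c * a) = if c * ((n / s : ℕ) : ZMod n) = 0 then ((A n s).card : ℂ) else 0 := by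
  classical
  have hspos : 0 < s := Nat.pos_of_dvd_of_pos hs (Nat.pos_of_ne_zero (NeZero.ne n))
  split_ifs with h
  · rw [Finset.sum_congr rfl (g := fun _ => (1 : ℂ)), Finset.sum_const, nsmul_eq_mul, mul_one]
    intro a ha
    rw [A, Finset.mem_filter] at ha
    have h1 : n ∣ s * a.val := by
      rw [← ZMod.natCast_eq_zero_iff, Nat.cast_mul, ZMod.natCast_zmod_val, ← nsmul_eq_mul]
      exact ha.2
    obtain ⟨j, hj⟩ : n / s ∣ a.val := by
      obtain ⟨j, hj⟩ := h1
      refine ⟨j, Nat.eq_of_mul_eq_mul_left hspos ?_⟩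
      rw [← mul_assoc, Nat.mul_div_cancel' hs]
      exact hj
    rw [psi_eq_one, ← ZMod.natCast_zmod_val a, hj, Nat.cast_mul, ← mul_assoc, h, zero_mul]
  · set g : ZMod n := ((n / s : ℕ) : ZMod n) with hg
    have hsg : s • g = 0 := by
      rw [nsmul_eq_mul, hg, ← Nat.cast_mul, Nat.mul_div_cancel' hs, ZMod.natCast_self]
    have h1 : ∑ a ∈ A n s, ψ n (c * a) = ∑ a ∈ A n s, ψ n (c * (a + g)) := by
      symm
      apply Finset.sum_nbij' (fun a => a + g) (fun a => a - g)
      · intro a ha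
        rw [A, Finset.mem_filter] at ha ⊢
        exact ⟨Finset.mem_univ _, by rw [smul_add, ha.2, hsg, add_zero]⟩
      · intro a ha
        rw [A, Finset.mem_filter] at ha ⊢
        exact ⟨Finset.mem_univ _, by rw [smul_sub, ha.2, hsg, sub_zero]⟩
      · intro a _; ring
      · intro a _; ring
      · intro a _; rfl
    have h2 : ∑ a ∈ A n s, ψ n (c * (a + g)) = (∑ a ∈ A n s, ψ n (c * a)) * ψ n (c * g) := by
      rw [Finset.sum_mul]
      refine Finset.sum_congr rfl fun a _ => ?_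
      rw [mul_add, AddChar.map_add_eq_mul]
    rw [h2] at h1
    have h3 : ψ n (c * g) ≠ 1 := fun h4 => h (psi_eq_one.1 h4)
    by_contra hne
    apply h3
    have h4 : (∑ a ∈ A n s, ψ n (c * a)) * ψ n (c * g) = (∑ a ∈ A n s, ψ n (c * a)) * 1 := by
      rw [← h1, mul_one]
    exact mul_left_cancel₀ hne h4

lemma sum_S {s : ℕ} (hs : s ∣ n) (y : ZMod n) (m : ℕ) :
    ∑ a ∈ A n s, S (ψ n (a * y)) m =
      ((A n s).card : ℂ) * ((m / addOrderOf (y * ((n / s : ℕ) : ZMod n)) : ℕ) : ℂ) := by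
  classical
  unfold S
  rw [Finset.sum_comm]
  have h : ∀ i ∈ range m, ∑ a ∈ A n s, ψ n (a * y) ^ (i + 1) =
      if addOrderOf (y * ((n / s : ℕ) : ZMod n)) ∣ i + 1 then ((A n s).card : ℂ) else 0 := by
    intro i _
    have h1 : ∀ a : ZMod n, ψ n (a * y) ^ (i + 1) = ψ n ((((i + 1 : ℕ) : ZMod n) * y) * a) := by
      intro a
      rw [← psi_nsmul]
      congr 1
      ring
    rw [Finset.sum_congr rfl (fun a _ => h1 a), sum_A hs]
    have h2 : ((((i + 1 : ℕ) : ZMod n) * y) * ((n / s : ℕ) : ZMod n) = 0) ↔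
        addOrderOf (y * ((n / s : ℕ) : ZMod n)) ∣ i + 1 := by
      rw [addOrderOf_dvd_iff_nsmul_eq_zero, nsmul_eq_mul, mul_assoc]
    simp only [h2]
  rw [Finset.sum_congr rfl h, ← Finset.sum_filter, Finset.sum_const, Nat.card_multiples,
    nsmul_eq_mul, mul_comm]

/-- the basic expression -/
noncomputable def K (n v w k : ℕ) [NeZero n] (a y : ZMod n) : ℂ :=
  v * S (ψ n (a * y)) k - w * S (ψ n (a * y)) n

/-- arithmetic of a divisor -/
lemma arith {v w k d : ℕ} (hw : 1 ≤ w) (hwv : w < v) (hv : ∀ d, d ∣ n → v ∣ d - 1)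
    (hk : v * k = w * (n - 1)) (hd : d ∣ n) :
    ∃ q' M' : ℕ, d = v * q' + 1 ∧ n / d - 1 = v * M' ∧ n = d * (v * M' + 1) ∧
      k = d * (w * M') + w * q' ∧ w * q' < d := by
  have hn0 : 0 < n := Nat.pos_of_ne_zero (NeZero.ne n)
  have hd0 : 0 < d := Nat.pos_of_dvd_of_pos hd hn0
  obtain ⟨q', hq'⟩ := hv d hd
  obtain ⟨M', hM'⟩ := hv (n / d) (Nat.div_dvd_of_dvd hd)
  have hM0 : 0 < n / d := Nat.div_pos (Nat.le_of_dvd hn0 hd) hd0
  have h1 : d = v * q' + 1 := by omega
  have h2 : n / d = v * M' + 1 := by omega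
  have h3 : n = d * (v * M' + 1) := by rw [← h2, Nat.mul_div_cancel' hd]
  refine ⟨q', M', h1, hM', h3, ?_, ?_⟩
  · have h4 : n - 1 = d * (v * M') + v * q' := by
      have : n = d * (v * M') + (v * q' + 1) := by
        rw [← h1]; exact h3.trans (by ring)
      omega
    rw [h4] at hk
    have h5 : v * k = v * (d * (w * M') + w * q') := by rw [hk]; ring
    exact Nat.eq_of_mul_eq_mul_left (by omega) h5
  · have : w * q' ≤ v * q' := Nat.mul_le_mul_right _ hwv.le
    omega

lemma sum_K {v w k : ℕ} (hw : 1 ≤ w) (hwv : w < v) (hv : ∀ d, d ∣ n → v ∣ d - 1)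
    (hk : v * k = w * (n - 1)) {s : ℕ} (hs : s ∣ n) (y : ZMod n) :
    ∑ a ∈ A n s, K n v w k a y = - (w * (A n s).card : ℂ) := by
  unfold K
  rw [Finset.sum_sub_distrib, ← Finset.mul_sum, ← Finset.mul_sum, sum_S hs, sum_S hs]
  set t := addOrderOf (y * ((n / s : ℕ) : ZMod n)) with ht
  have htd : t ∣ n := ord_dvd _
  obtain ⟨q', M', h1, h2, h3, h4, h5⟩ := arith hw hwv hv hk htd
  have hk' : k / t = w * M' := by
    rw [h4, Nat.mul_add_div (by omega), Nat.div_eq_of_lt h5, Nat.add_zero]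
  have hn' : n / t = v * M' + 1 := by
    have : 0 < n / t := Nat.div_pos (Nat.le_of_dvd (Nat.pos_of_ne_zero (NeZero.ne n)) htd) (by omega)
    omega
  rw [hk', hn']
  push_cast
  ring

lemma class_const {v w k : ℕ} (hw : 1 ≤ w) (hwv : w < v) (hv : ∀ d, d ∣ n → v ∣ d - 1)
    (hk : v * k = w * (n - 1)) (y y' : ZMod n) : ∀ s : ℕ, s ∣ n →
    ∑ a ∈ univ.filter (fun a : ZMod n => addOrderOf a = s), K n v w k a y =
    ∑ a ∈ univ.filter (fun a : ZMod n => addOrderOf a = s), K n v w k a y' := by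
  classical
  have hfib : ∀ s : ℕ, s ∣ n → ∀ z : ZMod n, ∑ a ∈ A n s, K n v w k a z =
      ∑ e ∈ s.divisors, ∑ a ∈ univ.filter (fun a : ZMod n => addOrderOf a = e), K n v w k a z := by
    intro s hs z
    have hs0 : s ≠ 0 := by
      rintro rfl
      exact NeZero.ne n (zero_dvd_iff.1 hs)
    rw [← Finset.sum_fiberwise_of_maps_to (s := A n s) (t := s.divisors) (g := fun a => addOrderOf a)]
    · refine Finset.sum_congr rfl fun e he => ?_
      apply Finset.sum_congr _ (fun _ _ => rfl)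
      ext a
      rw [A, Finset.mem_filter, Finset.mem_filter, Finset.mem_filter]
      constructor
      · rintro ⟨-, h⟩
        exact ⟨Finset.mem_univ _, h⟩
      · rintro ⟨-, h⟩
        refine ⟨⟨Finset.mem_univ _, ?_⟩, h⟩
        rw [← addOrderOf_dvd_iff_nsmul_eq_zero, h]
        exact Nat.dvd_of_mem_divisors he
    · intro a ha
      rw [A, Finset.mem_filter] at ha
      exact Nat.mem_divisors.2 ⟨addOrderOf_dvd_of_nsmul_eq_zero ha.2, hs0⟩
  intro s
  induction s using Nat.strong_induction_on with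
  | _ s ih =>
    intro hs
    have hs0 : s ≠ 0 := by
      rintro rfl
      exact NeZero.ne n (zero_dvd_iff.1 hs)
    have h1 := hfib s hs y
    have h2 := hfib s hs y'
    rw [sum_K hw hwv hv hk hs, ← Nat.insert_self_properDivisors hs0,
      Finset.sum_insert Nat.self_notMem_properDivisors] at h1 h2
    have h3 : ∑ e ∈ s.properDivisors,
        ∑ a ∈ univ.filter (fun a : ZMod n => addOrderOf a = e), K n v w k a y =
        ∑ e ∈ s.properDivisors,
        ∑ a ∈ univ.filter (fun a : ZMod n => addOrderOf a = e), K n v w k a y' := by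
      refine Finset.sum_congr rfl fun e he => ?_
      rw [Nat.mem_properDivisors] at he
      exact ih e he.2 (he.1.trans hs)
    rw [h3] at h1
    rw [h1] at h2
    exact add_right_cancel h2

/-- the weight of an order -/
noncomputable def W (n v w q : ℕ) : ℂ :=
  (-1) ^ (w * ((n / q - 1) / v)) *
    (((v * ((n / q - 1) / v)).choose (w * ((n / q - 1) / v)) : ℕ) : ℂ)

lemma term {v w k : ℕ} (hno : Odd n) (hw : 1 ≤ w) (hwv : w < v) (hv : ∀ d, d ∣ n → v ∣ d - 1)
    (hk : v * k = w * (n - 1)) (a : ZMod n) {y : ZMod n} (hy : y ≠ 0) :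
    (v : ℂ) * ∑ i ∈ range k, (-1) ^ i * (ψ n (-(a * (0 - ((i + 1 : ℕ) : ZMod n) * y))) *
      ((-1) ^ ((k - 1 - i) % addOrderOf a) *
        (((n / addOrderOf a - 1).choose ((k - 1 - i) / addOrderOf a) : ℕ) : ℂ))) =
      (-1) ^ (k - 1) * (W n v w (addOrderOf a) * K n v w k a y) := by
  have hd := ord_dvd a
  obtain ⟨q', M', h1, h2, h3, h4, h5⟩ := arith hw hwv hv hk hd
  have hω : ψ n (a * y) ^ addOrderOf a = 1 := by
    rw [← psi_nsmul, psi_eq_one, ← mul_assoc, ← nsmul_eq_mul, addOrderOf_nsmul_eq_zero, zero_mul]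
  have h0 : M' = 0 → ψ n (a * y) ≠ 1 := by
    intro hM h6
    rw [psi_eq_one] at h6
    rw [hM] at h3
    have h7 : n = addOrderOf a := h3.trans (by ring)
    have h8 : y.val • a = 0 := by
      rw [nsmul_eq_mul, ZMod.natCast_zmod_val, mul_comm]
      exact h6
    have h9 := addOrderOf_dvd_of_nsmul_eq_zero h8
    rw [← h7] at h9
    apply hy
    rw [← ZMod.natCast_zmod_val y]
    exact (ZMod.natCast_eq_zero_iff _ _).2 h9
  have h := block hw hwv h1 (Odd.of_dvd_nat hno hd) h4 h3 hω h0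
  have hM' : (n / addOrderOf a - 1) / v = M' := by
    rw [h2, Nat.mul_div_cancel_left _ (by omega)]
  unfold W K
  rw [hM', ← h, h2]
  congr 1
  refine Finset.sum_congr rfl fun i _ => ?_
  have e : -(a * (0 - ((i + 1 : ℕ) : ZMod n) * y)) = ((i + 1 : ℕ) : ZMod n) * (a * y) := by ring
  rw [e, psi_nsmul]

lemma N_const {v w k : ℕ} (hn : 2 ≤ n) (hno : Odd n) (hw : 1 ≤ w) (hwv : w < v)
    (hv : ∀ d, d ∣ n → v ∣ d - 1) (hk : v * k = w * (n - 1)) {y : ZMod n} (hy : y ≠ 0) :
    N n k 0 y = N n k 0 1 := by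
  classical
  have key : ∀ z : ZMod n, z ≠ 0 → (v : ℂ) * ((n : ℂ) * (N n k 0 z : ℂ)) =
      (-1) ^ (k - 1) * ∑ e ∈ n.divisors, W n v w e *
        ∑ a ∈ univ.filter (fun a : ZMod n => addOrderOf a = e), K n v w k a z := by
    intro z hz
    rw [N_sum k 0 z hz, Finset.mul_sum]
    have h1 : ∀ i ∈ range k, (n : ℂ) * ((-1) ^ i *
        (b n (k - 1 - i) (0 - ((i + 1 : ℕ) : ZMod n) * z) : ℂ)) =
        ∑ a : ZMod n, (-1) ^ i * (ψ n (-(a * (0 - ((i + 1 : ℕ) : ZMod n) * z))) *
      ((-1) ^ ((k - 1 - i) % addOrderOf a) *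
        (((n / addOrderOf a - 1).choose ((k - 1 - i) / addOrderOf a) : ℕ) : ℂ))) := by
      intro i _
      rw [← Finset.mul_sum, ← b_fourier hno]
      ring
    rw [Finset.sum_congr rfl h1, Finset.sum_comm, Finset.mul_sum,
      Finset.sum_congr rfl (fun a _ => term hno hw hwv hv hk a hz), ← Finset.mul_sum]
    congr 1
    rw [← Finset.sum_fiberwise_of_maps_to (s := (univ : Finset (ZMod n))) (t := n.divisors)
      (g := fun a => addOrderOf a)
      (fun a _ => Nat.mem_divisors.2 ⟨ord_dvd a, NeZero.ne n⟩)]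
    refine Finset.sum_congr rfl fun e _ => ?_
    rw [Finset.mul_sum]
    refine Finset.sum_congr rfl fun a ha => ?_
    rw [(Finset.mem_filter.1 ha).2]
  have h1 := key y hy
  have h2 := key 1 (one_ne hn)
  have h3 : ∑ e ∈ n.divisors, W n v w e *
        ∑ a ∈ univ.filter (fun a : ZMod n => addOrderOf a = e), K n v w k a y =
      ∑ e ∈ n.divisors, W n v w e *
        ∑ a ∈ univ.filter (fun a : ZMod n => addOrderOf a = e), K n v w k a 1 := by
    refine Finset.sum_congr rfl fun e he => ?_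
    rw [class_const hw hwv hv hk y 1 e (Nat.dvd_of_mem_divisors he)]
  rw [h3, ← h2] at h1
  have hv0 : (v : ℂ) ≠ 0 := by
    have : v ≠ 0 := by omega
    exact_mod_cast this
  have hn0 : (n : ℂ) ≠ 0 := by exact_mod_cast NeZero.ne n
  have h4 := mul_left_cancel₀ hn0 (mul_left_cancel₀ hv0 h1)
  exact_mod_cast h4

end Run7.h840.OD
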